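import Pool.Agent.Helper63.XR.StB

/-!
# Project XR: module GCJ (conjugacy)
-/

set_option autoImplicit false

namespace Pool.Agent.Helper16.XR

open Pool.Agent.Helper63.XR Finset Filter Topology

/-- Conjugation by a homeomorphism. -/
def GCJ_hom {X Y : Type} [TopologicalSpace X] [TopologicalSpace Y] (φ : X ≃ₜ Y) : (X ≃ₜ X) →* (Y ≃ₜ Y) where
  toFun h := (φ.symm.trans h).trans φ
  map_one' := by
    ext y
    simp
  map_mul' h h' := by
    ext y
    simp

theorem GCJ_zpow {X Y : Type} [TopologicalSpace X] [TopologicalSpace Y] (φ : X ≃ₜ Y) (h : X ≃ₜ X) (n : ℤ) (x : X) :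
    (((φ.symm.trans h).trans φ) ^ n : Y ≃ₜ Y) (φ x) = φ ((h ^ n : X ≃ₜ X) x) := by
  have h1 : ((φ.symm.trans h).trans φ) ^ n = GCJ_hom φ (h ^ n) := by
    rw [map_zpow]
    rfl
  rw [h1]
  show φ ((h ^ n : X ≃ₜ X) (φ.symm (φ x))) = _
  rw [Homeomorph.symm_apply_apply]

theorem hGCJ : StGcj := by
  intro X Y _ _ φ h hG N
  obtain ⟨t, f, h1, h2, h3, h4, h5⟩ := hG N
  have hf : ∀ x : X, (f.comp ⟨φ.symm, φ.symm.continuous⟩ : C(Y, ℝ)) (φ x) = f x := by
    intro x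
    show f (φ.symm (φ x)) = f x
    rw [Homeomorph.symm_apply_apply]
  refine ⟨φ t, f.comp ⟨φ.symm, φ.symm.continuous⟩, ?_, ?_, ?_, ?_, ?_⟩
  · intro y
    exact h1 (φ.symm y)
  · rw [hf, h2]
  · intro y i hi hiN
    obtain ⟨x, rfl⟩ := φ.surjective y
    rw [GCJ_zpow, hf, hf]
    exact h3 x i hi hiN
  · have e : Helper63.XR.rec ((φ.symm.trans h).trans φ) (φ t) = Helper63.XR.rec h t := by
      unfold Helper63.XR.rec
      congr 1
      have e1 : (fun M : ℕ => (((φ.symm.trans h).trans φ) ^ ((M : ℕ) : ℤ) : Y ≃ₜ Y) (φ t)) =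
          φ ∘ fun M : ℕ => (h ^ ((M : ℕ) : ℤ) : X ≃ₜ X) t := by
        funext M
        exact GCJ_zpow φ h _ t
      rw [e1, ← comap_comap, ← φ.isInducing.nhds_eq_comap]
    rw [e]
    exact h4
  · filter_upwards [h5] with M hM
    simp only [GCJ_zpow, hf]
    exact hM

end Pool.Agent.Helper16.XR
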